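import Pool.Agent.H27Delt.Pione

set_option autoImplicit false

namespace Pool.Agent.H27Delt

theorem px_sub {s : ℂ} (hs : s ≠ 0) : px s - 3 = (s - 1) ^ 2 * (2 * s + 1) / s ^ 2 := by
  unfold px
  field_simp
  ring

theorem py_sub {s : ℂ} (hs : s ≠ 0) : py s - 3 = (s - 1) ^ 2 * (s + 2) / s := by
  unfold py
  field_simp
  ring

noncomputable def Nrm (s : ℂ) : ℝ := ‖px s - 3‖ ^ 2 + ‖py s - 3‖ ^ 2

theorem Nrm_lower {s : ℂ} (hs : s ≠ 0) (h : 1 / 10 ≤ ‖s - 1‖) : (1 / 1600 : ℝ) ^ 2 ≤ Nrm s := by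
  have hsn : 0 < ‖s‖ := norm_pos_iff.2 hs
  have h2 : (1 / 100 : ℝ) ≤ ‖s - 1‖ ^ 2 := by nlinarith
  have hx : ‖px s - 3‖ = ‖s - 1‖ ^ 2 * ‖2 * s + 1‖ / ‖s‖ ^ 2 := by
    rw [px_sub hs, norm_div, norm_mul, norm_pow, norm_pow]
  have hy : ‖py s - 3‖ = ‖s - 1‖ ^ 2 * ‖s + 2‖ / ‖s‖ := by
    rw [py_sub hs, norm_div, norm_mul, norm_pow]
  have key : 1 / 1600 ≤ ‖px s - 3‖ ∨ 1 / 1600 ≤ ‖py s - 3‖ := by
    by_cases h4 : ‖s‖ ≤ 4
    · have h5 : (3 : ℝ) ≤ ‖2 * s + 1‖ + 2 * ‖s + 2‖ := by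
        have e1 : ‖(2 * s + 1) - 2 * (s + 2)‖ ≤ ‖2 * s + 1‖ + ‖2 * (s + 2)‖ := norm_sub_le _ _
        have e2 : (2 * s + 1) - 2 * (s + 2) = -3 := by ring
        rw [e2, norm_neg, norm_mul] at e1
        norm_num at e1
        linarith
      by_cases h6 : 1 ≤ ‖2 * s + 1‖
      · left
        rw [hx, le_div_iff₀ (by positivity)]
        nlinarith [mul_le_mul h2 h6 (by norm_num) (by positivity)]
      · right
        push Not at h6
        have h7 : 1 ≤ ‖s + 2‖ := by linarith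
        rw [hy, le_div_iff₀ (by positivity)]
        nlinarith [mul_le_mul h2 h7 (by norm_num) (by positivity)]
    · right
      push Not at h4
      have h7 : ‖s‖ / 2 ≤ ‖s + 2‖ := by
        have e1 : ‖(s + 2) - 2‖ ≤ ‖s + 2‖ + ‖(2 : ℂ)‖ := norm_sub_le _ _
        have e2 : (s + 2) - 2 = s := by ring
        rw [e2] at e1
        norm_num at e1
        linarith
      rw [hy, le_div_iff₀ (by positivity)]
      nlinarith [mul_le_mul h2 h7 (by positivity) (by positivity)]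
  unfold Nrm
  rcases key with h | h
  · nlinarith [sq_nonneg ‖py s - 3‖, norm_nonneg (px s - 3)]
  · nlinarith [sq_nonneg ‖px s - 3‖, norm_nonneg (py s - 3)]

theorem one_add_ne_zero {v : ℂ} (hv : ‖v‖ < 1 / 10) : 1 + v ≠ 0 := by
  intro h
  have : v = -1 := by linear_combination h
  rw [this] at hv
  norm_num at hv

theorem normSq_identity (v : ℂ) (l : ℝ) :
    ‖1 + (l : ℂ) * v‖ ^ 2 = l ^ 2 * ‖1 + v‖ ^ 2 + (1 - l) * (1 + l + 2 * l * v.re) := by
  rw [← Complex.normSq_eq_norm_sq, ← Complex.normSq_eq_norm_sq, Complex.normSq_apply,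
    Complex.normSq_apply]
  simp
  ring

theorem radial_x {v : ℂ} (hv : ‖v‖ < 1 / 10) {l : ℝ} (h0 : 0 ≤ l) (h1 : l ≤ 1) :
    ‖px (1 + l * v) - 3‖ ≤ ‖px (1 + v) - 3‖ := by
  have hlv : ‖(l : ℂ) * v‖ = l * ‖v‖ := by
    rw [norm_mul, Complex.norm_real, Real.norm_of_nonneg h0]
  have hlv' : ‖(l : ℂ) * v‖ < 1 / 10 := by
    rw [hlv]
    nlinarith [norm_nonneg v]
  have n1 := one_add_ne_zero hv
  have n2 := one_add_ne_zero hlv'
  have p1 : 0 < ‖1 + v‖ := norm_pos_iff.2 n1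
  have p2 : 0 < ‖1 + (l : ℂ) * v‖ := norm_pos_iff.2 n2
  rw [px_sub n1, px_sub n2, norm_div, norm_div, norm_mul, norm_mul, norm_pow, norm_pow, norm_pow,
    norm_pow]
  have e1 : (1 + (l : ℂ) * v) - 1 = l * v := by ring
  have e2 : (1 + v) - 1 = v := by ring
  have e3 : 2 * (1 + (l : ℂ) * v) + 1 = 3 + 2 * (l * v) := by ring
  have e4 : 2 * (1 + v) + 1 = 3 + 2 * v := by ring
  rw [e1, e2, e3, e4, hlv, div_le_div_iff₀ (by positivity) (by positivity)]
  have hid := normSq_identity v l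
  set a := ‖1 + v‖ with ha
  set b := ‖1 + (l : ℂ) * v‖ with hb
  set c := ‖3 + 2 * v‖ with hc
  have ha2 : a ^ 2 ≤ 2 := by
    have : a ≤ 1 + ‖v‖ := by
      rw [ha]
      refine (norm_add_le _ _).trans ?_
      rw [norm_one]
    nlinarith
  have hc1 : 2 ≤ c := by
    have : ‖(3 + 2 * v) - 2 * v‖ ≤ ‖3 + 2 * v‖ + ‖2 * v‖ := norm_sub_le _ _
    rw [add_sub_cancel_right, norm_mul] at this
    norm_num at this
    linarith
  have hd : ‖3 + 2 * ((l : ℂ) * v)‖ ≤ c + 2 * (1 - l) * ‖v‖ := by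
    have : 3 + 2 * ((l : ℂ) * v) = (3 + 2 * v) - ((2 * (1 - l) : ℝ) : ℂ) * v := by
      push_cast; ring
    rw [this]
    refine (norm_sub_le _ _).trans ?_
    rw [norm_mul, Complex.norm_real, Real.norm_of_nonneg (by linarith)]
  have hre : -(1 / 10) ≤ v.re := by
    have := Complex.abs_re_le_norm v
    have := (abs_le.1 this).1
    linarith
  have hvn := norm_nonneg v
  -- main inequality
  have hmain : l ^ 2 * a ^ 2 * ‖3 + 2 * ((l : ℂ) * v)‖ ≤ b ^ 2 * c := by
    have s1 : l ^ 2 * a ^ 2 * ‖3 + 2 * ((l : ℂ) * v)‖ ≤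
        l ^ 2 * a ^ 2 * (c + 2 * (1 - l) * ‖v‖) := mul_le_mul_of_nonneg_left hd (by positivity)
    have s2 : l ^ 2 * a ^ 2 * (2 * ‖v‖) ≤ 1 := by
      have t1 : l ^ 2 ≤ 1 := pow_le_one₀ h0 h1
      have t2 : l ^ 2 * a ^ 2 ≤ 2 := by nlinarith [sq_nonneg a, sq_nonneg l]
      have t3 : 0 ≤ l ^ 2 * a ^ 2 := by positivity
      nlinarith
    have s3 : 1 ≤ (1 + l + 2 * l * v.re) * c := by
      have t1 : 1 ≤ 1 + l + 2 * l * v.re := by nlinarith
      nlinarith
    rw [hid]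
    have s4 : (1 - l) * (l ^ 2 * a ^ 2 * (2 * ‖v‖)) ≤ (1 - l) * ((1 + l + 2 * l * v.re) * c) :=
      mul_le_mul_of_nonneg_left (s2.trans s3) (by linarith)
    nlinarith
  have hv2 : 0 ≤ ‖v‖ ^ 2 := by positivity
  nlinarith [mul_le_mul_of_nonneg_left hmain hv2]

theorem radial_y {v : ℂ} (hv : ‖v‖ < 1 / 10) {l : ℝ} (h0 : 0 ≤ l) (h1 : l ≤ 1) :
    ‖py (1 + l * v) - 3‖ ≤ ‖py (1 + v) - 3‖ := by
  have hlv : ‖(l : ℂ) * v‖ = l * ‖v‖ := by
    rw [norm_mul, Complex.norm_real, Real.norm_of_nonneg h0]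
  have hlv' : ‖(l : ℂ) * v‖ < 1 / 10 := by
    rw [hlv]
    nlinarith [norm_nonneg v]
  have n1 := one_add_ne_zero hv
  have n2 := one_add_ne_zero hlv'
  have p1 : 0 < ‖1 + v‖ := norm_pos_iff.2 n1
  have p2 : 0 < ‖1 + (l : ℂ) * v‖ := norm_pos_iff.2 n2
  rw [py_sub n1, py_sub n2, norm_div, norm_div, norm_mul, norm_mul, norm_pow, norm_pow]
  have e1 : (1 + (l : ℂ) * v) - 1 = l * v := by ring
  have e2 : (1 + v) - 1 = v := by ring
  have e3 : (1 + (l : ℂ) * v) + 2 = 3 + l * v := by ring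
  have e4 : (1 + v) + 2 = 3 + v := by ring
  rw [e1, e2, e3, e4, hlv, div_le_div_iff₀ (by positivity) (by positivity)]
  have hid := normSq_identity v l
  set a := ‖1 + v‖ with ha
  set b := ‖1 + (l : ℂ) * v‖ with hb
  set c := ‖3 + v‖ with hc
  have hre : -(1 / 10) ≤ v.re := by
    have := Complex.abs_re_le_norm v
    have := (abs_le.1 this).1
    linarith
  have hvn := norm_nonneg v
  have hc1 : 2 ≤ c := by
    have : ‖(3 + v) - v‖ ≤ ‖3 + v‖ + ‖v‖ := norm_sub_le _ _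
    rw [add_sub_cancel_right] at this
    norm_num at this
    linarith
  have hab : l * a ≤ b := by
    have h2 : (l * a) ^ 2 ≤ b ^ 2 := by
      rw [hid]
      have t1 : 0 ≤ 1 + l + 2 * l * v.re := by nlinarith
      have t2 : 0 ≤ (1 - l) * (1 + l + 2 * l * v.re) := mul_nonneg (by linarith) t1
      nlinarith
    exact (sq_le_sq₀ (by positivity) p2.le).1 h2
  have hd : l * ‖3 + (l : ℂ) * v‖ ≤ c := by
    have h3 : ‖3 + (l : ℂ) * v‖ ≤ c + (1 - l) * ‖v‖ := by
      have : 3 + (l : ℂ) * v = (3 + v) - ((1 - l : ℝ) : ℂ) * v := by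
        push_cast; ring
      rw [this]
      refine (norm_sub_le _ _).trans ?_
      rw [norm_mul, Complex.norm_real, Real.norm_of_nonneg (by linarith)]
    have h4 : l * ‖3 + (l : ℂ) * v‖ ≤ l * (c + (1 - l) * ‖v‖) :=
      mul_le_mul_of_nonneg_left h3 h0
    have h5 : l * ‖v‖ ≤ c := by nlinarith
    have h6 : (1 - l) * (l * ‖v‖) ≤ (1 - l) * c := mul_le_mul_of_nonneg_left h5 (by linarith)
    nlinarith
  have hmul : (l * ‖3 + (l : ℂ) * v‖) * (l * a) ≤ c * b :=
    mul_le_mul hd hab (by positivity) (by positivity)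
  have hv2 : 0 ≤ ‖v‖ ^ 2 := by positivity
  nlinarith [mul_le_mul_of_nonneg_left hmul hv2]

theorem Nrm_radial {v : ℂ} (hv : ‖v‖ < 1 / 10) {l : ℝ} (h0 : 0 ≤ l) (h1 : l ≤ 1) :
    Nrm (1 + l * v) ≤ Nrm (1 + v) := by
  unfold Nrm
  have hx := radial_x hv h0 h1
  have hy := radial_y hv h0 h1
  gcongr

theorem punctured_ball (ρ : ℝ) : IsPreconnected {z : ℂ | z ≠ 1 ∧ ‖z - 1‖ < ρ} := by
  have : {z : ℂ | z ≠ 1 ∧ ‖z - 1‖ < ρ} =
      (fun x : ℝ × ℝ => 1 + (x.1 : ℂ) * Complex.exp (x.2 * Complex.I)) ''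
        (Set.Ioo 0 ρ ×ˢ Set.univ) := by
    ext z
    constructor
    · rintro ⟨h1, h2⟩
      refine ⟨(‖z - 1‖, Complex.arg (z - 1)), ⟨⟨norm_pos_iff.2 (sub_ne_zero.2 h1), h2⟩,
        Set.mem_univ _⟩, ?_⟩
      show 1 + (‖z - 1‖ : ℂ) * Complex.exp (Complex.arg (z - 1) * Complex.I) = z
      rw [Complex.norm_mul_exp_arg_mul_I]
      ring
    · rintro ⟨⟨r, θ⟩, ⟨⟨h1, h2⟩, _⟩, rfl⟩
      have h3 : ‖(1 + (r : ℂ) * Complex.exp (θ * Complex.I)) - 1‖ = r := by
        rw [add_sub_cancel_left, norm_mul, Complex.norm_exp_ofReal_mul_I, mul_one,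
          Complex.norm_real, Real.norm_of_nonneg h1.le]
      refine ⟨?_, ?_⟩
      · intro h4
        simp only at h4
        rw [h4, sub_self, norm_zero] at h3
        exact h1.ne h3
      · simp only
        rw [h3]
        exact h2
  rw [this]
  refine (isPreconnected_Ioo.prod isPreconnected_univ).image _ ?_
  exact Continuous.continuousOn (by fun_prop)

theorem D_preconnected {δ : ℝ} (hδ : 0 < δ) (hδ' : δ < 1 / 1600) :
    IsPreconnected {s : ℂ | s ≠ 0 ∧ s ≠ 1 ∧ Nrm s < δ ^ 2} := by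
  have hsmall : ∀ s : ℂ, s ≠ 0 → Nrm s < δ ^ 2 → ‖s - 1‖ < 1 / 10 := by
    intro s hs h
    by_contra hlt
    push Not at hlt
    have h1 := Nrm_lower hs hlt
    have h2 : δ ^ 2 < (1 / 1600 : ℝ) ^ 2 := pow_lt_pow_left₀ hδ' hδ.le (by norm_num)
    linarith
  obtain ⟨ρ, hρ, hρ', hball⟩ : ∃ ρ : ℝ, 0 < ρ ∧ ρ ≤ 1 / 10 ∧
      ∀ s : ℂ, ‖s - 1‖ < ρ → Nrm s < δ ^ 2 := by
    have hcont : ContinuousAt Nrm 1 := by
      unfold Nrm px py
      have h1 : ContinuousAt (fun s : ℂ => (s ^ 2)⁻¹) 1 :=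
        (continuousAt_id.pow 2).inv₀ (by norm_num)
      have h2 : ContinuousAt (fun s : ℂ => s⁻¹) 1 := continuousAt_id.inv₀ (by norm_num)
      fun_prop
    have h1 : Nrm 1 < δ ^ 2 := by
      have : Nrm 1 = 0 := by unfold Nrm px py; norm_num
      rw [this]
      positivity
    have h2 := hcont.eventually (gt_mem_nhds h1)
    obtain ⟨ρ, hρ, hρ'⟩ := Metric.eventually_nhds_iff.1 h2
    refine ⟨min ρ (1 / 10), lt_min hρ (by norm_num), min_le_right _ _, fun s hs => ?_⟩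
    exact hρ' (by rw [Complex.dist_eq]; exact lt_of_lt_of_le hs (min_le_left _ _))
  have hsub : {z : ℂ | z ≠ 1 ∧ ‖z - 1‖ < ρ} ⊆ {s : ℂ | s ≠ 0 ∧ s ≠ 1 ∧ Nrm s < δ ^ 2} := by
    rintro z ⟨h1, h2⟩
    refine ⟨?_, h1, hball z h2⟩
    rintro rfl
    norm_num at h2
    linarith
  have hρn : ‖((ρ / 2 : ℝ) : ℂ)‖ = ρ / 2 := by
    rw [Complex.norm_real, Real.norm_of_nonneg (by linarith)]
  have hx0 : (1 + ((ρ / 2 : ℝ) : ℂ)) ∈ {z : ℂ | z ≠ 1 ∧ ‖z - 1‖ < ρ} := by
    refine ⟨?_, ?_⟩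
    · intro h
      have : ((ρ / 2 : ℝ) : ℂ) = 0 := by linear_combination h
      rw [this, norm_zero] at hρn
      linarith
    · rw [add_sub_cancel_left, hρn]
      linarith
  apply isPreconnected_of_forall (1 + ((ρ / 2 : ℝ) : ℂ))
  rintro w ⟨hw0, hw1, hwN⟩
  have hwn := hsmall w hw0 hwN
  have hwpos : 0 < ‖w - 1‖ := norm_pos_iff.2 (sub_ne_zero.2 hw1)
  set T : Set ℂ := (fun l : ℝ => 1 + (l : ℂ) * (w - 1)) '' Set.Ioc 0 1 with hT
  refine ⟨T ∪ {z : ℂ | z ≠ 1 ∧ ‖z - 1‖ < ρ}, ?_, Or.inr hx0, Or.inl ⟨1, ⟨by norm_num, le_rfl⟩, ?_⟩,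
    ?_⟩
  · rintro z (⟨l, ⟨hl0, hl1⟩, rfl⟩ | hz)
    · have h1 : ‖(l : ℂ) * (w - 1)‖ < 1 / 10 := by
        rw [norm_mul, Complex.norm_real, Real.norm_of_nonneg hl0.le]
        nlinarith
      refine ⟨one_add_ne_zero h1, ?_, ?_⟩
      · intro h2
        simp only at h2
        have h3 : (l : ℂ) * (w - 1) = 0 := by linear_combination h2
        rcases mul_eq_zero.1 h3 with h | h
        · have : l = 0 := by exact_mod_cast h
          linarith
        · exact hw1 (by linear_combination h)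
      · have h2 := Nrm_radial hwn hl0.le hl1
        have h3 : 1 + (w - 1) = w := by ring
        rw [h3] at h2
        exact lt_of_le_of_lt h2 hwN
    · exact hsub hz
  · simp
  · set l : ℝ := min 1 (ρ / 2 / ‖w - 1‖) with hl
    have hl0 : 0 < l := lt_min one_pos (by positivity)
    have hl1 : l ≤ 1 := min_le_left _ _
    have hl2 : l * ‖w - 1‖ < ρ := by
      have : l * ‖w - 1‖ ≤ ρ / 2 / ‖w - 1‖ * ‖w - 1‖ :=
        mul_le_mul_of_nonneg_right (min_le_right _ _) hwpos.le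
      rw [div_mul_cancel₀ _ hwpos.ne'] at this
      linarith
    refine IsPreconnected.union (1 + (l : ℂ) * (w - 1)) ⟨l, ⟨hl0, hl1⟩, rfl⟩ ⟨?_, ?_⟩ ?_
      (punctured_ball ρ)
    · intro h2
      have h3 : (l : ℂ) * (w - 1) = 0 := by linear_combination h2
      rcases mul_eq_zero.1 h3 with h | h
      · have : l = 0 := by exact_mod_cast h
        linarith
      · exact hw1 (by linear_combination h)
    · rw [add_sub_cancel_left, norm_mul, Complex.norm_real, Real.norm_of_nonneg hl0.le]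
      exact hl2
    · rw [hT]
      refine isPreconnected_Ioc.image _ ?_
      exact Continuous.continuousOn (by fun_prop)

/-- the punctured neighbourhoods of the cusps are connected -/
theorem cusp {η : ℂ} (hη : η ^ 3 = 1) {δ : ℝ} (hδ : 0 < δ) (hδ' : δ < 1 / 1600) :
    IsPreconnected {q : Fin 2 → ℂ | MvPolynomial.eval q F = 0 ∧ q ≠ ![3 * η, 3 * η ^ 2] ∧
      ‖q 0 - (![3 * η, 3 * η ^ 2] : Fin 2 → ℂ) 0‖ ^ 2 +
        ‖q 1 - (![3 * η, 3 * η ^ 2] : Fin 2 → ℂ) 1‖ ^ 2 < δ ^ 2} := by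
  have hη0 : η ≠ 0 := by
    rintro rfl
    norm_num at hη
  have hηn : ‖η‖ = 1 := by
    have h1 : ‖η‖ ^ 3 = 1 := by rw [← norm_pow, hη, norm_one]
    exact (pow_eq_one_iff_of_nonneg (norm_nonneg _) (by norm_num)).1 h1
  have hxη : ∀ s : ℂ, s ≠ 0 → px (η * s) = η * px s := by
    intro s hs
    unfold px
    field_simp
    linear_combination (-1 : ℂ) * hη
  have hyη : ∀ s : ℂ, s ≠ 0 → py (η * s) = η ^ 2 * py s := by
    intro s hs
    unfold py
    field_simp
    linear_combination (-2 : ℂ) * hη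
  have hset : {q : Fin 2 → ℂ | MvPolynomial.eval q F = 0 ∧ q ≠ ![3 * η, 3 * η ^ 2] ∧
      ‖q 0 - (![3 * η, 3 * η ^ 2] : Fin 2 → ℂ) 0‖ ^ 2 +
        ‖q 1 - (![3 * η, 3 * η ^ 2] : Fin 2 → ℂ) 1‖ ^ 2 < δ ^ 2} =
      (fun s : ℂ => (![px (η * s), py (η * s)] : Fin 2 → ℂ)) ''
        {s : ℂ | s ≠ 0 ∧ s ≠ 1 ∧ Nrm s < δ ^ 2} := by
    have hN : ∀ s : ℂ, s ≠ 0 → ‖px (η * s) - 3 * η‖ ^ 2 + ‖py (η * s) - 3 * η ^ 2‖ ^ 2 = Nrm s := by
      intro s hs
      rw [hxη s hs, hyη s hs]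
      have e1 : η * px s - 3 * η = η * (px s - 3) := by ring
      have e2 : η ^ 2 * py s - 3 * η ^ 2 = η ^ 2 * (py s - 3) := by ring
      rw [e1, e2, norm_mul, norm_mul, norm_pow, hηn]
      unfold Nrm
      ring
    ext q
    constructor
    · rintro ⟨h1, h2, h3⟩
      rw [eval_F] at h1
      obtain ⟨t, ht, hx, hy⟩ := surj h1
      have hts : η * (t / η) = t := mul_div_cancel₀ t hη0
      refine ⟨t / η, ⟨div_ne_zero ht hη0, ?_, ?_⟩, ?_⟩
      · intro h4
        rw [h4, mul_one] at hts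
        apply h2
        funext i
        fin_cases i
        · show q 0 = 3 * η
          rw [hx, ← hts]
          have := hxη 1 one_ne_zero
          rw [mul_one] at this
          rw [this]
          unfold px
          norm_num
          ring
        · show q 1 = 3 * η ^ 2
          rw [hy, ← hts]
          have := hyη 1 one_ne_zero
          rw [mul_one] at this
          rw [this]
          unfold py
          norm_num
          ring
      · rw [← hN _ (div_ne_zero ht hη0), hts, ← hx, ← hy]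
        exact h3
      · funext i
        fin_cases i
        · show px (η * (t / η)) = q 0
          rw [hts, hx]
        · show py (η * (t / η)) = q 1
          rw [hts, hy]
    · rintro ⟨s, ⟨hs0, hs1, hs2⟩, rfl⟩
      have hηs : η * s ≠ 0 := mul_ne_zero hη0 hs0
      refine ⟨?_, ?_, ?_⟩
      · rw [eval_F]
        exact on_curve hηs
      · intro h4
        have hx := congrFun h4 0
        have hy := congrFun h4 1
        apply hs1
        have h5 : η * s = η := by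
          apply inj hηs hη0
          · have e : px η = 3 * η := by
              have := hxη 1 one_ne_zero
              rw [mul_one] at this
              rw [this]
              unfold px
              norm_num
              ring
            rw [e]
            exact hx
          · have e : py η = 3 * η ^ 2 := by
              have := hyη 1 one_ne_zero
              rw [mul_one] at this
              rw [this]
              unfold py
              norm_num
              ring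
            rw [e]
            exact hy
        have h6 : η * (s - 1) = 0 := by linear_combination h5
        rcases mul_eq_zero.1 h6 with h | h
        · exact absurd h hη0
        · linear_combination h
      · show ‖px (η * s) - 3 * η‖ ^ 2 + ‖py (η * s) - 3 * η ^ 2‖ ^ 2 < δ ^ 2
        rw [hN s hs0]
        exact hs2
  rw [hset]
  refine (D_preconnected hδ hδ').image _ ?_
  intro s hs
  apply ContinuousAt.continuousWithinAt
  have hηs : η * s ≠ 0 := mul_ne_zero hη0 hs.1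
  rw [continuousAt_pi]
  intro i
  fin_cases i
  · show ContinuousAt (fun s => px (η * s)) s
    unfold px
    have h1 : ContinuousAt (fun s : ℂ => ((η * s) ^ 2)⁻¹) s :=
      ContinuousAt.inv₀ (by fun_prop) (pow_ne_zero 2 hηs)
    fun_prop
  · show ContinuousAt (fun s => py (η * s)) s
    unfold py
    have h1 : ContinuousAt (fun s : ℂ => (η * s)⁻¹) s :=
      ContinuousAt.inv₀ (by fun_prop) hηs
    fun_prop

end Pool.Agent.H27Delt
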