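import Mathlib

set_option autoImplicit false

namespace Pool.Agent.H27Delt

open Polynomial

theorem noroot (ρ : ℂ[X]) :
    4 * ρ ^ 3 - X ^ 2 * ρ ^ 2 - 18 * X * ρ + 4 * X ^ 3 + 27 ≠ 0 := by
  intro h
  -- the degree is at most two
  have hdeg : ρ.natDegree < 3 := by
    by_contra hlt
    push Not at hlt
    have h1 : 4 * ρ ^ 3 = X ^ 2 * ρ ^ 2 + 18 * X * ρ - 4 * X ^ 3 - 27 := by
      linear_combination h
    have h2 : (4 * ρ ^ 3).natDegree = 3 * ρ.natDegree := by
      have : (4 : ℂ[X]) = C 4 := rfl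
      rw [this, natDegree_C_mul (by norm_num), natDegree_pow]
    have h3 : (X ^ 2 * ρ ^ 2 + 18 * X * ρ - 4 * X ^ 3 - 27 : ℂ[X]).natDegree ≤
        2 * ρ.natDegree + 2 := by
      have e1 : (X ^ 2 * ρ ^ 2 : ℂ[X]).natDegree ≤ 2 * ρ.natDegree + 2 := by
        refine natDegree_mul_le.trans ?_
        rw [natDegree_X_pow, natDegree_pow]
        omega
      have e2 : (18 * X * ρ : ℂ[X]).natDegree ≤ 2 * ρ.natDegree + 2 := by
        have : (18 * X * ρ : ℂ[X]) = C 18 * (X * ρ) := by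
          rw [← mul_assoc]; rfl
        rw [this, natDegree_C_mul (by norm_num)]
        refine natDegree_mul_le.trans ?_
        rw [natDegree_X]
        omega
      have e3 : (4 * X ^ 3 : ℂ[X]).natDegree ≤ 2 * ρ.natDegree + 2 := by
        have : (4 * X ^ 3 : ℂ[X]) = C 4 * X ^ 3 := rfl
        rw [this, natDegree_C_mul (by norm_num), natDegree_X_pow]
        omega
      have e4 : (27 : ℂ[X]).natDegree ≤ 2 * ρ.natDegree + 2 := by
        have : (27 : ℂ[X]) = C 27 := rfl
        rw [this, natDegree_C]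
        omega
      refine (natDegree_sub_le _ _).trans (max_le ((natDegree_sub_le _ _).trans (max_le
        ((natDegree_add_le _ _).trans (max_le e1 e2)) e3)) e4)
    rw [← h1, h2] at h3
    omega
  obtain ⟨a, b, d, habd⟩ : ∃ a b d : ℂ, ρ = C d + C b * X + C a * X ^ 2 := by
    refine ⟨ρ.coeff 2, ρ.coeff 1, ρ.coeff 0, ?_⟩
    conv_lhs => rw [ρ.as_sum_range_C_mul_X_pow' hdeg]
    simp [Finset.sum_range_succ]
  have hev : ∀ x : ℂ, 4 * (d + b * x + a * x ^ 2) ^ 3 - x ^ 2 * (d + b * x + a * x ^ 2) ^ 2 -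
      18 * x * (d + b * x + a * x ^ 2) + 4 * x ^ 3 + 27 = 0 := by
    intro x
    have := congrArg (eval x) h
    rw [habd] at this
    simpa using this
  have e0 := hev 0
  have e1 := hev 1
  have e2 := hev (-1)
  have e3 := hev 2
  have e4 := hev (-2)
  have e5 := hev 3
  have e6 := hev (-3)
  have g6 : 4 * a ^ 3 - a ^ 2 = 0 := by
    linear_combination (1 / 720) * (e5 + e6) - (6 / 720) * (e3 + e4) + (15 / 720) * (e1 + e2) -
      (20 / 720) * e0
  have g5 : 12 * a ^ 2 * b - 2 * a * b = 0 := by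
    linear_combination (1 / 240) * (e5 - e6) - (4 / 240) * (e3 - e4) + (5 / 240) * (e1 - e2)
  have g4 : 12 * a ^ 2 * d + 12 * a * b ^ 2 - 2 * a * d - b ^ 2 = 0 := by
    linear_combination (-1 / 144) * (e5 + e6) + (12 / 144) * (e3 + e4) - (39 / 144) * (e1 + e2) +
      (56 / 144) * e0
  have g3 : 4 * b ^ 3 + 24 * a * b * d - 2 * b * d - 18 * a + 4 = 0 := by
    linear_combination (-1 / 48) * (e5 - e6) + (8 / 48) * (e3 - e4) - (13 / 48) * (e1 - e2)
  have g0 : 4 * d ^ 3 + 27 = 0 := by linear_combination e0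
  by_cases ha : a = 0
  · subst ha
    have hb : b ^ 2 = 0 := by linear_combination -g4
    have hb' : b = 0 := by simpa using hb
    subst hb'
    norm_num at g3
  · have ha4 : 4 * a = 1 := by
      have : a ^ 2 * (4 * a - 1) = 0 := by linear_combination g6
      rcases mul_eq_zero.1 this with h' | h'
      · exact absurd (by simpa using h') ha
      · linear_combination h'
    have hb : b = 0 := by
      have : a * b = 0 := by linear_combination g5 - 3 * a * b * ha4
      rcases mul_eq_zero.1 this with h' | h'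
      · exact absurd h' ha
      · exact h'
    subst hb
    have hd : d = 0 := by
      have : a * d = 0 := by linear_combination g4 - 3 * a * d * ha4
      rcases mul_eq_zero.1 this with h' | h'
      · exact absurd h' ha
      · exact h'
    subst hd
    norm_num at g0

/-- the equation of the deltoid -/
noncomputable def F : MvPolynomial (Fin 2) ℂ :=
  MvPolynomial.X 0 ^ 2 * MvPolynomial.X 1 ^ 2 - 4 * MvPolynomial.X 0 ^ 3 -
    4 * MvPolynomial.X 1 ^ 3 + 18 * MvPolynomial.X 0 * MvPolynomial.X 1 - 27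

theorem eval_F (z : Fin 2 → ℂ) : MvPolynomial.eval z F =
    z 0 ^ 2 * z 1 ^ 2 - 4 * z 0 ^ 3 - 4 * z 1 ^ 3 + 18 * z 0 * z 1 - 27 := by
  simp [F]

theorem eval_pderiv0 (z : Fin 2 → ℂ) : MvPolynomial.eval z (MvPolynomial.pderiv 0 F) =
    2 * (z 0 * z 1 ^ 2 - 6 * z 0 ^ 2 + 9 * z 1) := by
  have h4 : (4 : MvPolynomial (Fin 2) ℂ) = MvPolynomial.C 4 := rfl
  have h18 : (18 : MvPolynomial (Fin 2) ℂ) = MvPolynomial.C 18 := rfl
  have h27 : (27 : MvPolynomial (Fin 2) ℂ) = MvPolynomial.C 27 := rfl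
  rw [F, h4, h18, h27]
  simp [MvPolynomial.pderiv_X, Derivation.leibniz, Derivation.leibniz_pow]
  ring

theorem eval_pderiv1 (z : Fin 2 → ℂ) : MvPolynomial.eval z (MvPolynomial.pderiv 1 F) =
    2 * (z 0 ^ 2 * z 1 - 6 * z 1 ^ 2 + 9 * z 0) := by
  have h4 : (4 : MvPolynomial (Fin 2) ℂ) = MvPolynomial.C 4 := rfl
  have h18 : (18 : MvPolynomial (Fin 2) ℂ) = MvPolynomial.C 18 := rfl
  have h27 : (27 : MvPolynomial (Fin 2) ℂ) = MvPolynomial.C 27 := rfl
  rw [F, h4, h18, h27]
  simp [MvPolynomial.pderiv_X, Derivation.leibniz, Derivation.leibniz_pow]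
  ring

theorem irreducible_F : Irreducible F := by
  rw [← MulEquiv.irreducible_iff (MvPolynomial.finSuccEquiv ℂ 1)]
  set c : MvPolynomial (Fin 1) ℂ := MvPolynomial.X 0 with hc
  set P : Polynomial (MvPolynomial (Fin 1) ℂ) :=
    X ^ 3 + (C (-(MvPolynomial.C (1 / 4) * c ^ 2)) * X ^ 2 +
      C (-(MvPolynomial.C (9 / 2) * c)) * X + C (c ^ 3 + MvPolynomial.C (27 / 4))) with hP
  have hFP : MvPolynomial.finSuccEquiv ℂ 1 F = C (MvPolynomial.C (-4)) * P := by
    have h1 : MvPolynomial.finSuccEquiv ℂ 1 (MvPolynomial.X 1) = C c := by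
      have := MvPolynomial.finSuccEquiv_X_succ (R := ℂ) (n := 1) (j := 0)
      exact this
    have h0 : MvPolynomial.finSuccEquiv ℂ 1 (MvPolynomial.X 0) = X :=
      MvPolynomial.finSuccEquiv_X_zero
    rw [F]
    simp only [map_sub, map_add, map_mul, map_pow, h0, h1, map_ofNat]
    have e1 : (MvPolynomial.C (-4) : MvPolynomial (Fin 1) ℂ) = -4 := by
      rw [map_neg]; rfl
    have e2 : (4 : MvPolynomial (Fin 1) ℂ) * MvPolynomial.C (1 / 4) = 1 := by
      rw [show (4 : MvPolynomial (Fin 1) ℂ) = MvPolynomial.C 4 from rfl, ← MvPolynomial.C_mul]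
      norm_num
    have e3 : (4 : MvPolynomial (Fin 1) ℂ) * MvPolynomial.C (9 / 2) = 18 := by
      rw [show (4 : MvPolynomial (Fin 1) ℂ) = MvPolynomial.C 4 from rfl, ← MvPolynomial.C_mul]
      norm_num
      rfl
    have e4 : (4 : MvPolynomial (Fin 1) ℂ) * MvPolynomial.C (27 / 4) = 27 := by
      rw [show (4 : MvPolynomial (Fin 1) ℂ) = MvPolynomial.C 4 from rfl, ← MvPolynomial.C_mul]
      norm_num
      rfl
    have e2' := congrArg (C : MvPolynomial (Fin 1) ℂ → _) e2
    have e3' := congrArg (C : MvPolynomial (Fin 1) ℂ → _) e3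
    have e4' := congrArg (C : MvPolynomial (Fin 1) ℂ → _) e4
    rw [hP, e1]
    simp only [map_neg, map_add, map_mul, map_pow, map_ofNat, map_one] at e2' e3' e4' ⊢
    linear_combination (-(C c) ^ 2 * X ^ 2) * e2' + (- C c * X) * e3' + e4'
  rw [hFP]
  have hlow : (C (-(MvPolynomial.C (1 / 4) * c ^ 2)) * X ^ 2 +
      C (-(MvPolynomial.C (9 / 2) * c)) * X + C (c ^ 3 + MvPolynomial.C (27 / 4)) :
      Polynomial (MvPolynomial (Fin 1) ℂ)).degree < (3 : ℕ) := by
    refine lt_of_le_of_lt degree_quadratic_le ?_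
    norm_num
  have hmonic : P.Monic := monic_X_pow_add hlow
  have hnat : P.natDegree = 3 := by
    rw [hP, natDegree_add_eq_left_of_degree_lt, natDegree_X_pow]
    rw [degree_X_pow]
    exact hlow
  have hirr : Irreducible P := by
    rw [hmonic.irreducible_iff_roots_eq_zero_of_degree_le_three (by omega) (by omega)]
    apply Multiset.eq_zero_of_forall_notMem
    intro r hr
    rw [mem_roots hmonic.ne_zero, IsRoot.def] at hr
    set θ : MvPolynomial (Fin 1) ℂ →ₐ[ℂ] ℂ[X] := MvPolynomial.aeval fun _ => X with hθ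
    apply noroot (θ r)
    have h1 := congrArg θ hr
    rw [hP] at h1
    simp only [eval_add, eval_mul, eval_pow, eval_X, eval_C] at h1
    simp only [map_add, map_mul, map_pow, map_neg, map_zero] at h1
    have h2 : θ c = X := by
      rw [hθ, hc, MvPolynomial.aeval_X]
    have h3 : ∀ a : ℂ, θ (MvPolynomial.C a) = C a := by
      intro a
      rw [hθ, MvPolynomial.aeval_C]
      rfl
    rw [h2, h3, h3, h3] at h1
    have e2 : (4 : ℂ[X]) * C (1 / 4) = 1 := by
      rw [show (4 : ℂ[X]) = C 4 from rfl, ← C_mul]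
      norm_num
    have e3 : (4 : ℂ[X]) * C (9 / 2) = 18 := by
      rw [show (4 : ℂ[X]) = C 4 from rfl, ← C_mul]
      norm_num
      rfl
    have e4 : (4 : ℂ[X]) * C (27 / 4) = 27 := by
      rw [show (4 : ℂ[X]) = C 4 from rfl, ← C_mul]
      norm_num
      rfl
    linear_combination 4 * h1 + (X ^ 2 * (θ r) ^ 2) * e2 + (X * θ r) * e3 - e4
  have hunit : IsUnit (C (MvPolynomial.C (-4)) : Polynomial (MvPolynomial (Fin 1) ℂ)) := by
    refine IsUnit.map (Polynomial.C : MvPolynomial (Fin 1) ℂ →+* _)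
      (IsUnit.map (MvPolynomial.C : ℂ →+* MvPolynomial (Fin 1) ℂ) ?_)
    rw [isUnit_iff_ne_zero]
    norm_num
  rw [irreducible_isUnit_mul hunit]
  exact hirr

end Pool.Agent.H27Delt
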