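import Pool.Agent.H27Delt.Irred

set_option autoImplicit false

namespace Pool.Agent.H27Delt

noncomputable def px (t : ℂ) : ℂ := 2 * t + (t ^ 2)⁻¹
noncomputable def py (t : ℂ) : ℂ := t ^ 2 + 2 * t⁻¹

theorem on_curve {t : ℂ} (ht : t ≠ 0) :
    px t ^ 2 * py t ^ 2 - 4 * px t ^ 3 - 4 * py t ^ 3 + 18 * px t * py t - 27 = 0 := by
  unfold px py
  field_simp
  ring

theorem surj {x y : ℂ} (h : x ^ 2 * y ^ 2 - 4 * x ^ 3 - 4 * y ^ 3 + 18 * x * y - 27 = 0) :
    ∃ t : ℂ, t ≠ 0 ∧ x = px t ∧ y = py t := by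
  obtain ⟨a, ha⟩ : ∃ a : ℂ, a ^ 3 - x * a ^ 2 + y * a - 1 = 0 := by
    have hdeg : (Polynomial.X ^ 3 + (Polynomial.C (-x) * Polynomial.X ^ 2 +
        Polynomial.C y * Polynomial.X + Polynomial.C (-1)) : Polynomial ℂ).degree ≠ 0 := by
      rw [Polynomial.degree_add_eq_left_of_degree_lt, Polynomial.degree_X_pow]
      · norm_num
      · rw [Polynomial.degree_X_pow]
        refine lt_of_le_of_lt Polynomial.degree_quadratic_le ?_
        norm_num
    obtain ⟨a, ha⟩ := IsAlgClosed.exists_root _ hdeg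
    refine ⟨a, ?_⟩
    rw [Polynomial.IsRoot.def] at ha
    simp at ha
    linear_combination ha
  have ha0 : a ≠ 0 := by
    rintro rfl
    norm_num at ha
  obtain ⟨s, hs⟩ : ∃ s : ℂ, s ^ 2 = (x - a) ^ 2 - 4 * a⁻¹ :=
    IsAlgClosed.exists_pow_nat_eq _ (by norm_num)
  obtain ⟨b, hb⟩ : ∃ b, b = ((x - a) + s) / 2 := ⟨_, rfl⟩
  obtain ⟨c, hc⟩ : ∃ c, c = ((x - a) - s) / 2 := ⟨_, rfl⟩
  have hx : x = a + b + c := by rw [hb, hc]; ring
  have hbc : b * c = a⁻¹ := by
    rw [hb, hc]
    linear_combination (-1 / 4) * hs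
  have habc : a * b * c = 1 := by
    rw [mul_assoc, hbc, mul_inv_cancel₀ ha0]
  have hy : y = a * b + b * c + c * a := by
    have h1 : a * y = a * (a * b + b * c + c * a) := by
      rw [hx] at ha
      linear_combination ha - (1 : ℂ) * habc
    exact mul_left_cancel₀ ha0 h1
  have hdisc : ((a - b) * (b - c) * (c - a)) ^ 2 = 0 := by
    rw [hx, hy] at h
    linear_combination h + (-4 * (a + b + c) ^ 3 + 18 * (a + b + c) * (a * b + b * c + c * a) -
      27 * (a * b * c + 1)) * (habc) + 0 * hx - 0 * hy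
  have hprod : (a - b) * (b - c) * (c - a) = 0 := by
    simpa using hdisc
  have key : ∀ t u : ℂ, t * t * u = 1 → x = t + t + u → y = t * t + t * u + u * t →
      ∃ t : ℂ, t ≠ 0 ∧ x = px t ∧ y = py t := by
    intro t u h1 h2 h3
    have ht : t ≠ 0 := by
      rintro rfl
      norm_num at h1
    have hu : u = (t ^ 2)⁻¹ := by
      field_simp
      linear_combination h1
    refine ⟨t, ht, ?_, ?_⟩
    · rw [h2, hu, px]
      ring
    · rw [h3, hu, py]
      field_simp
      ring
  rcases mul_eq_zero.1 hprod with h1 | h1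
  · rcases mul_eq_zero.1 h1 with h2 | h2
    · have : b = a := by linear_combination -h2
      subst this
      exact key b c (by linear_combination habc) (by linear_combination hx)
        (by linear_combination hy)
    · have : c = b := by linear_combination -h2
      subst this
      exact key c a (by linear_combination habc) (by linear_combination hx)
        (by linear_combination hy)
  · have : c = a := by linear_combination h1
    subst this
    exact key c b (by linear_combination habc) (by linear_combination hx)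
      (by linear_combination hy)

theorem inj {s t : ℂ} (hs : s ≠ 0) (ht : t ≠ 0) (hx : px s = px t) (hy : py s = py t) : s = t := by
  unfold px at hx
  unfold py at hy
  have h1 : (s - t) ^ 2 * (s * t ^ 2 - 1) = 0 := by
    have e1 : s ^ 3 - (2 * t + (t ^ 2)⁻¹) * s ^ 2 + (t ^ 2 + 2 * t⁻¹) * s - 1 = 0 := by
      rw [← hx, ← hy]
      field_simp
      ring
    field_simp at e1
    linear_combination e1
  have h2 : (t - s) ^ 2 * (t * s ^ 2 - 1) = 0 := by
    have e1 : t ^ 3 - (2 * s + (s ^ 2)⁻¹) * t ^ 2 + (s ^ 2 + 2 * s⁻¹) * t - 1 = 0 := by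
      rw [hx, hy]
      field_simp
      ring
    field_simp at e1
    linear_combination e1
  by_contra hne
  have hst : s - t ≠ 0 := sub_ne_zero.2 hne
  have hts : t - s ≠ 0 := sub_ne_zero.2 (Ne.symm hne)
  have h3 : s * t ^ 2 - 1 = 0 := by
    rcases mul_eq_zero.1 h1 with h | h
    · exact absurd (by simpa using h) hst
    · exact h
  have h4 : t * s ^ 2 - 1 = 0 := by
    rcases mul_eq_zero.1 h2 with h | h
    · exact absurd (by simpa using h) hts
    · exact h
  have h5 : s * t * (s - t) = 0 := by linear_combination h4 - h3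
  rcases mul_eq_zero.1 h5 with h | h
  · rcases mul_eq_zero.1 h with h | h
    · exact hs h
    · exact ht h
  · exact hst h

/-- the curve -/
abbrev curve : Set (Fin 2 → ℂ) := {z | MvPolynomial.eval z F = 0}

theorem mem_curve (t : {z : ℂ // z ≠ 0}) : ![px t, py t] ∈ curve := by
  show MvPolynomial.eval _ F = 0
  rw [eval_F]
  exact on_curve t.2

noncomputable def Phi (t : {z : ℂ // z ≠ 0}) : curve := ⟨![px t, py t], mem_curve t⟩

theorem continuous_Phi : Continuous Phi := by
  refine Continuous.subtype_mk ?_ _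
  refine continuous_pi fun i => ?_
  have h1 : Continuous fun t : {z : ℂ // z ≠ 0} => (t : ℂ) := continuous_subtype_val
  fin_cases i
  · show Continuous fun t : {z : ℂ // z ≠ 0} => px t
    unfold px
    refine (continuous_const.mul h1).add ((h1.pow 2).inv₀ fun t => pow_ne_zero 2 t.2)
  · show Continuous fun t : {z : ℂ // z ≠ 0} => py t
    unfold py
    exact (h1.pow 2).add (continuous_const.mul (h1.inv₀ fun t => t.2))

theorem bijective_Phi : Function.Bijective Phi := by
  constructor
  · intro s t h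
    have h1 := congrArg Subtype.val h
    have hx := congrFun h1 0
    have hy := congrFun h1 1
    exact Subtype.ext (inj s.2 t.2 hx hy)
  · intro z
    have hz := z.2
    have hz' : MvPolynomial.eval (z : Fin 2 → ℂ) F = 0 := hz
    rw [eval_F] at hz'
    obtain ⟨t, ht, hx, hy⟩ := surj hz'
    refine ⟨⟨t, ht⟩, Subtype.ext ?_⟩
    funext i
    fin_cases i
    · exact hx.symm
    · exact hy.symm

theorem norm_le_of {t : ℂ} (ht : t ≠ 0) {R : ℝ} (hx : ‖px t‖ ≤ R) (hy : ‖py t‖ ≤ R) :
    ‖t‖ ≤ R + 1 ∧ ‖t⁻¹‖ ≤ R + 1 := by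
  have hR : 0 ≤ R := (norm_nonneg _).trans hx
  have htn : 0 < ‖t‖ := norm_pos_iff.2 ht
  constructor
  · by_cases h : ‖t‖ ≤ 1
    · linarith
    · push Not at h
      have h1 : ‖(t ^ 2)⁻¹‖ ≤ 1 := by
        rw [norm_inv, norm_pow]
        exact inv_le_one_of_one_le₀ (one_le_pow₀ h.le)
      have h2 : 2 * ‖t‖ = ‖px t - (t ^ 2)⁻¹‖ := by
        have : px t - (t ^ 2)⁻¹ = 2 * t := by unfold px; ring
        rw [this, norm_mul]
        norm_num
      have h3 := norm_sub_le (px t) (t ^ 2)⁻¹
      linarith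
  · by_cases h : 1 ≤ ‖t‖
    · have h1 : ‖t⁻¹‖ ≤ 1 := by
        rw [norm_inv]
        exact inv_le_one_of_one_le₀ h
      linarith
    · push Not at h
      have h1 : ‖t ^ 2‖ ≤ 1 := by
        rw [norm_pow]
        exact pow_le_one₀ (norm_nonneg _) h.le
      have h2 : 2 * ‖t⁻¹‖ = ‖py t - t ^ 2‖ := by
        have : py t - t ^ 2 = 2 * t⁻¹ := by unfold py; ring
        rw [this, norm_mul]
        norm_num
      have h3 := norm_sub_le (py t) (t ^ 2)
      have h4 := norm_nonneg (t⁻¹)
      linarith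

theorem isCompact_annulus (M : ℝ) :
    IsCompact {t : {z : ℂ // z ≠ 0} | ‖(t : ℂ)‖ ≤ M ∧ ‖(t : ℂ)⁻¹‖ ≤ M} := by
  rw [Subtype.isCompact_iff]
  have : (Subtype.val '' {t : {z : ℂ // z ≠ 0} | ‖(t : ℂ)‖ ≤ M ∧ ‖(t : ℂ)⁻¹‖ ≤ M}) =
      Metric.closedBall 0 M ∩ {z : ℂ | 1 ≤ M * ‖z‖} := by
    ext z
    simp only [Set.mem_image, Set.mem_ofPred_eq, Subtype.exists, exists_and_left, exists_prop,
      exists_eq_right_right, Set.mem_inter_iff, Metric.mem_closedBall, dist_zero_right]
    constructor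
    · rintro ⟨⟨h1, h2⟩, h3⟩
      refine ⟨h1, ?_⟩
      have hz : 0 < ‖z‖ := norm_pos_iff.2 h3
      rw [norm_inv, inv_le_iff_one_le_mul₀ hz] at h2
      exact h2
    · rintro ⟨h1, h2⟩
      have h3 : z ≠ 0 := by
        rintro rfl
        rw [norm_zero, mul_zero] at h2
        linarith
      have hz : 0 < ‖z‖ := norm_pos_iff.2 h3
      refine ⟨⟨h1, ?_⟩, h3⟩
      rw [norm_inv, inv_le_iff_one_le_mul₀ hz]
      exact h2
  rw [this]
  refine (isCompact_closedBall 0 M).inter_right ?_
  exact isClosed_le continuous_const (continuous_const.mul continuous_norm)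

end Pool.Agent.H27Delt
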