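import Pool.Agent.H27Delt.Param

set_option autoImplicit false

namespace Pool.Agent.H27Delt

theorem isClosedMap_Phi : IsClosedMap Phi := by
  have hprop : IsProperMap Phi := by
    have hcl : IsClosed curve := by
      have : curve = (fun z : Fin 2 → ℂ => z 0 ^ 2 * z 1 ^ 2 - 4 * z 0 ^ 3 - 4 * z 1 ^ 3 +
          18 * z 0 * z 1 - 27) ⁻¹' {0} := by
        ext z
        show MvPolynomial.eval z F = 0 ↔ _
        rw [eval_F]
        rfl
      rw [this]
      exact isClosed_singleton.preimage (by fun_prop)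
    haveI : LocallyCompactSpace curve := hcl.locallyCompactSpace
    rw [isProperMap_iff_isCompact_preimage]
    refine ⟨continuous_Phi, fun K hK => ?_⟩
    have hK' : IsCompact (Subtype.val '' K : Set (Fin 2 → ℂ)) := hK.image continuous_subtype_val
    obtain ⟨R, hR⟩ := hK'.isBounded.exists_norm_le
    refine (isCompact_annulus (R + 1)).of_isClosed_subset (hK.isClosed.preimage continuous_Phi) ?_
    intro t ht
    have h1 : ‖(Phi t : Fin 2 → ℂ)‖ ≤ R := hR _ ⟨Phi t, ht, rfl⟩
    have hx : ‖px t‖ ≤ R := (norm_le_pi_norm (Phi t : Fin 2 → ℂ) 0).trans h1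
    have hy : ‖py t‖ ≤ R := (norm_le_pi_norm (Phi t : Fin 2 → ℂ) 1).trans h1
    exact norm_le_of t.2 hx hy
  exact hprop.isClosedMap

noncomputable def homeo : {z : ℂ // z ≠ 0} ≃ₜ curve :=
  (Equiv.ofBijective Phi bijective_Phi).toHomeomorphOfContinuousClosed continuous_Phi
    isClosedMap_Phi

theorem covering : IsAddQuotientCoveringMap
    (homeo ∘ fun z : ℂ => (⟨_, z.exp_ne_zero⟩ : {z : ℂ // z ≠ 0}))
    (AddSubgroup.zmultiples (2 * Real.pi * Complex.I)) :=
  Complex.isAddQuotientCoveringMap_exp.homeomorph_comp homeo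

/-- the base point -/
noncomputable def base : curve := homeo ⟨Complex.exp 0, Complex.exp_ne_zero 0⟩

noncomputable def piEquiv : FundamentalGroup curve base ≃*
    (Multiplicative (AddSubgroup.zmultiples (2 * Real.pi * Complex.I)))ᵐᵒᵖ :=
  covering.fundamentalGroupEquiv ⟨0, rfl⟩

theorem finrank_le :
    Module.finrank ℤ (Additive (Abelianization (FundamentalGroup curve base))) ≤ 1 := by
  -- the group is cyclic
  obtain ⟨g, hg⟩ : ∃ g : FundamentalGroup curve base, ∀ h, ∃ n : ℤ, g ^ n = h := by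
    let c : AddSubgroup.zmultiples (2 * Real.pi * Complex.I) :=
      ⟨2 * Real.pi * Complex.I, AddSubgroup.mem_zmultiples _⟩
    refine ⟨piEquiv.symm (MulOpposite.op (Multiplicative.ofAdd c)), fun h => ?_⟩
    obtain ⟨n, hn⟩ := AddSubgroup.mem_zmultiples_iff.1 (Multiplicative.toAdd
      (MulOpposite.unop (piEquiv h))).2
    refine ⟨n, ?_⟩
    apply piEquiv.injective
    rw [map_zpow, MulEquiv.apply_symm_apply]
    apply MulOpposite.unop_injective
    rw [MulOpposite.unop_zpow, MulOpposite.unop_op]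
    apply Multiplicative.toAdd.injective
    apply Subtype.ext
    rw [← hn]
    simp [c]
  refine finrank_le_one (Additive.ofMul (Abelianization.of g)) ?_
  intro w
  obtain ⟨h, hh⟩ : ∃ h, Abelianization.of h = Additive.toMul w :=
    QuotientGroup.mk_surjective (Additive.toMul w)
  obtain ⟨n, hn⟩ := hg h
  refine ⟨n, ?_⟩
  rw [← ofMul_zpow, ← map_zpow, hn, hh]
  rfl

end Pool.Agent.H27Delt
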